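import Mathlib

set_option autoImplicit false
open MvPolynomial

namespace Pool.Agent.Results.MP_8e9e7d_al.Four

def PF (Γ : AddSubmonoid ℤ) (x : ℤ) : Prop := x ∉ Γ ∧ ∀ s ∈ Γ, s ≠ 0 → x + s ∈ Γ

def MinGen (Γ : AddSubmonoid ℤ) (g : ℤ) : Prop :=
  g ∈ Γ ∧ g ≠ 0 ∧ ∀ a ∈ Γ, ∀ b ∈ Γ, g = a + b → a = 0 ∨ b = 0

def NG (Γ : AddSubmonoid ℤ) : Prop :=
  ∀ g, MinGen Γ g → ∃ p, PF Γ p ∧ ∀ q, PF Γ q → g + p - q ∈ Γ

def AS (Γ : AddSubmonoid ℤ) (F : ℤ) : Prop := ∀ x ∉ Γ, F - x ∈ Γ ∨ (PF Γ x ∧ PF Γ (F - x))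

def gen {e : ℕ} (g : Fin e → ℕ) : AddSubmonoid ℤ :=
  AddSubmonoid.closure (Set.range fun i => (g i : ℤ))

noncomputable def I (k : Type) [Field k] {e : ℕ} (g : Fin e → ℕ) : Ideal (MvPolynomial (Fin e) k) :=
  RingHom.ker (aeval fun i => (Polynomial.X : Polynomial k) ^ g i)

lemma mem (x : ℤ) : x ∈ gen ![6, 7, 8, 9] ↔ x = 0 ∨ (6 ≤ x ∧ x ≤ 9) ∨ 12 ≤ x := by
  constructor
  · intro h
    induction h using AddSubmonoid.closure_induction with
    | mem _ h => obtain ⟨i, rfl⟩ := h; fin_cases i <;> simp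
    | zero => simp
    | add _ _ _ _ a b => omega
  · intro h
    have h' : ∀ i, ((![6, 7, 8, 9] i : ℕ) : ℤ) ∈ gen ![6, 7, 8, 9] :=
      fun i => AddSubmonoid.subset_closure ⟨i, rfl⟩
    obtain ⟨a, b, c, d, rfl⟩ : ∃ a b c d : ℕ, x = a • (6 : ℤ) + b • 7 + c • 8 + d • 9 := by
      simp only [nsmul_eq_mul]
      have : x % 6 = 0 ∨ x % 6 = 1 ∨ x % 6 = 2 ∨ x % 6 = 3 ∨ x % 6 = 4 ∨ x % 6 = 5 := by omega
      rcases this with e | e | e | e | e | e
      exacts [⟨(x / 6).toNat, 0, 0, 0, by omega⟩, ⟨(x / 6 - 1).toNat, 1, 0, 0, by omega⟩,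
        ⟨(x / 6 - 1).toNat, 0, 1, 0, by omega⟩, ⟨(x / 6 - 1).toNat, 0, 0, 1, by omega⟩,
        ⟨(x / 6 - 2).toNat, 0, 2, 0, by omega⟩, ⟨(x / 6 - 2).toNat, 0, 1, 1, by omega⟩]
    exact add_mem (add_mem (add_mem (nsmul_mem (h' 0) _) (nsmul_mem (h' 1) _)) (nsmul_mem (h' 2) _))
      (nsmul_mem (h' 3) _)

lemma pf (x : ℤ) : PF (gen ![6, 7, 8, 9]) x ↔ x = 10 ∨ x = 11 := by
  simp only [PF, mem]
  refine ⟨fun ⟨h, h'⟩ => ?_, fun h => ⟨by omega, fun s _ _ => by omega⟩⟩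
  have := h' 6; have := h' 7; have := h' 8; have := h' 9
  omega

lemma mg (x : ℤ) : MinGen (gen ![6, 7, 8, 9]) x ↔ 6 ≤ x ∧ x ≤ 9 := by
  simp only [MinGen, mem]
  refine ⟨fun ⟨h, h0, h'⟩ => ?_, fun h => ⟨by omega, by omega, fun a _ b _ _ => by omega⟩⟩
  have := h' 6 (by omega) (x - 6); have := h' 9 (by omega) (x - 9)
  omega

def ap : Fin 6 → ℕ := ![0, 7, 8, 9, 16, 17]
def W {Q : Type} [CommRing Q] (x : Fin 4 → Q) : Fin 6 → Q := ![1, x 1, x 2, x 3, x 1 * x 3, x 2 * x 3]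

lemma stp {Q : Type} [CommRing Q] (x : Fin 4 → Q) (h0 : x 0 * x 2 - x 1 ^ 2 = 0)
    (h1 : x 0 * x 3 - x 1 * x 2 = 0) (h2 : x 1 * x 3 - x 2 ^ 2 = 0) (h3 : x 3 ^ 2 - x 0 ^ 3 = 0)
    (i : Fin 4) (r : Fin 6) : ∃ b s, ap r + ![6, 7, 8, 9] i = 6 * b + ap s ∧
      W x r * x i = x 0 ^ b * W x s := by
  refine ⟨(ap r + ![6, 7, 8, 9] i - ap (Fin.ofNat 6 (ap r + ![6, 7, 8, 9] i))) / 6,
    Fin.ofNat 6 (ap r + ![6, 7, 8, 9] i), by revert i r; decide, ?_⟩
  fin_cases i <;> fin_cases r <;> simp [W, ap, Fin.ofNat] <;> grind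

variable (k : Type) [Field k]

noncomputable def f : Fin 4 → MvPolynomial (Fin 4) k :=
  ![X 0 * X 2 - X 1 ^ 2, X 0 * X 3 - X 1 * X 2, X 1 * X 3 - X 2 ^ 2, X 3 ^ 2 - X 0 ^ 3]

lemma ker : Ideal.span (Set.range (f k)) = I k ![6, 7, 8, 9] := by
  refine le_antisymm (Ideal.span_le.2 ?_) fun p hp => ?_
  · rintro _ ⟨i, rfl⟩
    fin_cases i <;> simp [I, f, ← pow_add, ← pow_mul]
  let π := Ideal.Quotient.mkₐ k (Ideal.span (Set.range (f k)))
  have h : ∀ i, π (f k i) = 0 := fun i =>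
    Ideal.Quotient.eq_zero_iff_mem.2 (Ideal.subset_span ⟨i, rfl⟩)
  let w := W fun i => π (X i)
  let nf : ℕ → _ := fun n => π (X 0) ^ ((n - ap (Fin.ofNat 6 n)) / 6) * w (Fin.ofNat 6 n)
  have hn : ∀ a r, nf (6 * a + ap r) = π (X 0) ^ a * w r := fun a r => by
    have : Fin.ofNat 6 (6 * a + ap r) = r := by
      fin_cases r <;> ext <;> simp [ap, Nat.add_mod]
    simp only [nf, this]
    simp
  have step := stp (fun i => π (X i)) (by simpa only [← map_mul, ← map_pow, ← map_sub] using! h 0)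
    (by simpa only [← map_mul, ← map_pow, ← map_sub] using! h 1)
    (by simpa only [← map_mul, ← map_pow, ← map_sub] using! h 2)
    (by simpa only [← map_mul, ← map_pow, ← map_sub] using! h 3)
  let φ : Polynomial k →ₗ[k] _ := (Polynomial.basisMonomials k).constr k nf
  let S := Submodule.span k {q : MvPolynomial (Fin 4) k | ∃ a r, π q = π (X 0) ^ a * w r ∧
    aeval (fun i => (Polynomial.X : Polynomial k) ^ ![6, 7, 8, 9] i) q =
      Polynomial.X ^ (6 * a + ap r)}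
  have hS : ∀ q, q ∈ S := fun q => by
    induction q using MvPolynomial.induction_on with
    | C c => simpa [smul_eq_C_mul] using S.smul_mem c (x := 1)
              (Submodule.subset_span ⟨0, 0, by simp [w, W], by simp [ap]⟩)
    | add _ _ a b => exact add_mem a b
    | mul_X q i hq =>
      induction hq using Submodule.span_induction with
      | mem q h =>
        obtain ⟨a, r, e1, e2⟩ := h
        obtain ⟨b, s, e3, e4⟩ := step i r
        exact Submodule.subset_span ⟨a + b, s, by rw [map_mul, e1, mul_assoc, e4, pow_add, mul_assoc],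
          by rw [map_mul, e2, aeval_X, ← pow_add, add_assoc, e3, mul_add, add_assoc]⟩
      | zero => simp
      | add _ _ _ _ a b => simpa [add_mul] using add_mem a b
      | smul c _ _ a => simpa using S.smul_mem c a
  have key : ∀ q ∈ S, φ (aeval (fun i => (Polynomial.X : Polynomial k) ^ ![6, 7, 8, 9] i) q) =
      π q := fun q hq => by
    induction hq using Submodule.span_induction with
    | mem q h =>
      obtain ⟨a, r, e1, e2⟩ := h
      rw [e1, e2, ← hn, Polynomial.X_pow_eq_monomial]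
      exact (Polynomial.basisMonomials k).constr_basis k nf _
    | zero => simp
    | add _ _ _ _ a b => simp only [map_add, a, b]
    | smul c _ _ a => simp only [map_smul, a]
  exact Ideal.Quotient.eq_zero_iff_mem.1 ((key p (hS p)).symm.trans ((congrArg φ hp).trans (map_zero φ)))

theorem result : ∃ g : Fin 4 → ℕ, StrictMono g ∧ {n : ℕ | (n : ℤ) ∉ gen g}.Finite ∧
    (∀ x, MinGen (gen g) x ↔ ∃ i, x = g i) ∧ NG (gen g) ∧
    (∃ F, IsGreatest {x | x ∉ gen g} F ∧ ¬ AS (gen g) F) ∧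
    ∀ (k : Type) [Field k], ∃ f : Fin 4 → MvPolynomial (Fin 4) k,
      Ideal.span (Set.range f) = I k g := by
  refine ⟨![6, 7, 8, 9], by decide, (Set.finite_lt_nat 12).subset fun n => ?_, fun x => ?_,
    fun x hx => ?_, ⟨11, ⟨?_, fun x => ?_⟩, fun h => ?_⟩, fun k _ => ⟨f k, ker k⟩⟩
  · simp only [mem, Set.mem_ofPred_eq]; omega
  · simp [mg, Fin.exists_fin_succ]; omega
  · rw [mg] at hx
    simp only [pf, mem]
    exact ⟨if x = 9 then 10 else 11, by omega, fun q _ => by omega⟩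
  · simp [mem]
  · simp only [mem, Set.mem_ofPred_eq]; omega
  · simpa [mem, pf] using h 10

end Pool.Agent.Results.MP_8e9e7d_al.Four
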